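import Pool.Agent.Helper30.AC.Stmts

/-!
# AC, row FUN: the function `f x = lim T n`
-/

set_option autoImplicit false

namespace Pool.Agent.Helper11.AC

open Filter Topology Pool.Agent.Helper30.AC

universe u

theorem fun_aux {E : Type u} [NormedAddCommGroup E] [NormedSpace ℝ E] (K : Set E)
    (y : ℕ → E →L[ℝ] ℝ) (hG : Good K) (hS : Sep K y) (T1 T2 T3 : ℕ → E) (l1 l2 l3 : E)
    (h1 : l1 ∈ K) (h2 : l2 ∈ K) (h3 : l3 ∈ K) (t1 : Tendsto T1 atTop (𝓝 l1))
    (t2 : Tendsto T2 atTop (𝓝 l2)) (t3 : Tendsto T3 atTop (𝓝 l3)) (t : ℝ) (ht0 : 0 ≤ t)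
    (ht1 : t ≤ 1) (h : LL y T3 = t • LL y T1 + (1 - t) • LL y T2) :
    l3 = t • l1 + (1 - t) • l2 := by
  have hc : t • l1 + (1 - t) • l2 ∈ K := hG.2.1 h1 h2 ht0 (by linarith) (by ring)
  refine hS l3 h3 _ hc fun i => ?_
  have a1 : Tendsto (fun n => y i (T1 n)) atTop (𝓝 (y i l1)) :=
    ((y i).continuous.tendsto l1).comp t1
  have a2 : Tendsto (fun n => y i (T2 n)) atTop (𝓝 (y i l2)) :=
    ((y i).continuous.tendsto l2).comp t2
  have a3 : Tendsto (fun n => y i (T3 n)) atTop (𝓝 (y i l3)) :=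
    ((y i).continuous.tendsto l3).comp t3
  have a4 : Tendsto (fun n => t * y i (T1 n) + (1 - t) * y i (T2 n)) atTop
      (𝓝 (t * y i l1 + (1 - t) * y i l2)) := (a1.const_mul t).add (a2.const_mul (1 - t))
  have e : (fun n => y i (T3 n)) =ᶠ[atTop] fun n => t * y i (T1 n) + (1 - t) * y i (T2 n) := by
    filter_upwards [eventually_ge_atTop i] with n hn
    have h' := congrFun (congrFun h n) i
    have g1 : LL y T3 n i = y i (T3 n) := if_pos hn
    have g2 : (t • LL y T1 + (1 - t) • LL y T2) n i =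
        t * y i (T1 n) + (1 - t) * y i (T2 n) := by
      have g3 : LL y T1 n i = y i (T1 n) := if_pos hn
      have g4 : LL y T2 n i = y i (T2 n) := if_pos hn
      show t * LL y T1 n i + (1 - t) * LL y T2 n i = _
      rw [g3, g4]
    rw [g1, g2] at h'
    exact h'
  have := tendsto_nhds_unique (a3.congr' e) a4
  rw [this, map_add, map_smul, map_smul, smul_eq_mul, smul_eq_mul]

/-- row FUN -/
theorem st_FUN (hLIM : ST_LIM.{u}) (hLAM : ST_LAM.{u}) : ST_FUN.{u} := by
  intro E _ _ _ K y hG hS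
  have hq : ∀ x : XX K y, ∃ q ∈ CC K, ∃ l ∈ K, x.1 = LL y q.2 ∧ (∀ n, q.2 n ∈ K) ∧
      Tendsto q.2 atTop (𝓝 l) := by
    intro x
    obtain ⟨q, hq, hx⟩ := x.2
    obtain ⟨hk, l, hl, ht⟩ := hLIM E K hG q hq
    exact ⟨q, hq, l, hl, hx, hk, ht⟩
  choose q hqC f hfK hx hqK hlim using hq
  refine ⟨f, ?_, ?_, ?_⟩
  · intro x x' z t ht0 ht1 hz
    refine fun_aux K y hG hS (q x).2 (q x').2 (q z).2 _ _ _ (hfK x) (hfK x') (hfK z) (hlim x)
      (hlim x') (hlim z) t ht0 ht1 ?_
    rw [← hx z, ← hx x, ← hx x']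
    exact hz
  · have hl : ∀ k : ℕ, ∃ n, k ≤ n ∧ ∃ lam : (ℕ → ℝ) → E, ContinuousOn lam (rho y n '' K) ∧
        ∀ v ∈ K, ‖lam (rho y n v) - v‖ ≤ 1 / ((k : ℝ) + 1) :=
      fun k => hLAM E K y hG hS (1 / ((k : ℝ) + 1)) (by positivity) k
    choose n hn lam hc hb using hl
    refine ⟨fun k x => lam k (x.1 (n k)), fun k => ?_, fun x => ?_⟩
    · refine (hc k).comp_continuous ((continuous_apply (n k)).comp continuous_subtype_val) ?_
      intro x
      refine ⟨(q x).2 (n k), hqK x (n k), ?_⟩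
      show rho y (n k) ((q x).2 (n k)) = x.1 (n k)
      rw [hx x]
      rfl
    · have hnt : Tendsto n atTop atTop := tendsto_atTop_mono hn tendsto_id
      have h1 : Tendsto (fun k => (q x).2 (n k)) atTop (𝓝 (f x)) := (hlim x).comp hnt
      have h2 : Tendsto (fun k => lam k (x.1 (n k)) - (q x).2 (n k)) atTop (𝓝 0) := by
        refine squeeze_zero_norm (fun k => ?_) tendsto_one_div_add_atTop_nhds_zero_nat
        have e : x.1 (n k) = rho y (n k) ((q x).2 (n k)) := by
          rw [hx x]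
          rfl
        rw [e]
        exact hb k _ (hqK x (n k))
      have h3 := h2.add h1
      rw [zero_add] at h3
      refine h3.congr fun k => ?_
      exact sub_add_cancel _ _
  · intro v hv x hxv
    have h := fun_aux K y hG hS (fun _ => v) (fun _ => v) (q x).2 v v _ hv hv (hfK x)
      tendsto_const_nhds tendsto_const_nhds (hlim x) 1 zero_le_one le_rfl (by
        rw [← hx x, hxv, one_smul, sub_self, zero_smul, add_zero])
    rw [h, one_smul, sub_self, zero_smul, add_zero]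

end Pool.Agent.Helper11.AC
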